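import Pool.Agent.R640.EFin

/-!
# E-unitary inverse monoids over virtually free groups (MP_c7c9a4_al, Q1, positive answer)

A Schützenberger graph of a finitely presented `E`-unitary inverse monoid `M` embeds into the
Cayley graph of the virtually free group `M/σ`, and it is closed under the relators: if a relator
`r = s` can be read from a vertex along `r` then also along `s`. In the virtually free group
a bounded set separates two points far apart; a connected set which is closed under the relators
cannot be cut into pieces by it which are far from each other, since such a cut would give
a smaller set closed under the relators. This gives the bottleneck property at the base vertex.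
-/

set_option autoImplicit false

namespace Pool.Agent.Results.MP_c7c9a4_al.VirtuallyFreeTreeLike

open Pool.Agent.R640.IM

/-- A finitely presented `E`-unitary inverse monoid whose maximal group image is virtually free
is tree-like. -/
theorem result (A : Type) [Finite A] (R : Set (List (A × Bool) × List (A × Bool)))
    (hR : R.Finite) (hE : EUnitary (InvMon R)) (G : Type) [Group G]
    (e : (groupCon (InvMon R)).Quotient ≃* G) (hG : VirtuallyFree G) : TreeLike R :=
  treeLike_of_virtuallyFree hR hE e hG

end Pool.Agent.Results.MP_c7c9a4_al.VirtuallyFreeTreeLike
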